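import Pool.Agent.Hoch.Bridge

/-!
# A non-amenable Banach algebra with vanishing higher Hochschild homology
-/

namespace Pool.Agent.Results.MP_067393_an.BanachHigherVanishing

open Pool.Agent.Hoch

/-- There is a Banach algebra `A` all of whose Hochschild homology groups
`Hₖ(A, X) = ker dₖ₋₁ / im dₖ`, `k ≥ 1`, vanish for all Banach bimodules `X`, and which is not
amenable. -/
theorem result : ∃ A : BanAlg, A.HigherVanishing ∧ ¬ A.IsAmenable :=
  ⟨AA, AA_higherVanishing, AA_not_amenable⟩

end Pool.Agent.Results.MP_067393_an.BanachHigherVanishing
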